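import Mathlib

set_option autoImplicit false

namespace Pool.Agent.Results.MP_a8dd7a_co.Exists

/-- the set of symbols in row `i` -/
def rowSet {r c v : ℕ} (A : Fin r → Fin c → Fin v) (i : Fin r) : Finset (Fin v) :=
  Finset.univ.image (fun j => A i j)

/-- the set of symbols in column `j` -/
def colSet {r c v : ℕ} (A : Fin r → Fin c → Fin v) (j : Fin c) : Finset (Fin v) :=
  Finset.univ.image (fun i => A i j)

/-- `(r × c, v)`-triple array -/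
def IsTripleArray {r c v : ℕ} (A : Fin r → Fin c → Fin v) : Prop :=
  (∀ i j j', A i j = A i j' → j = j') ∧
  (∀ j i i', A i j = A i' j → i = i') ∧
  (∃ k : ℕ, k * v = r * c ∧
    ∀ s, (Finset.univ.filter (fun p : Fin r × Fin c => A p.1 p.2 = s)).card = k) ∧
  (∃ l : ℕ, ∀ i i', i ≠ i' → (rowSet A i ∩ rowSet A i').card = l) ∧
  (∃ l : ℕ, ∀ j j', j ≠ j' → (colSet A j ∩ colSet A j').card = l) ∧
  (∃ l : ℕ, ∀ i j, (rowSet A i ∩ colSet A j).card = l)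

def tab : List (List (Fin 100)) :=
  [[40, 0, 72, 55, 27, 62, 34, 47, 7, 54, 14, 56, 69, 36, 29, 43, 31, 16, 63, 71, 65, 53, 45, 38, 23],
   [70, 58, 25, 43, 3, 45, 5, 52, 60, 32, 67, 39, 27, 12, 59, 19, 61, 74, 41, 34, 48, 36, 21, 68, 51],
   [28, 41, 1, 73, 56, 50, 63, 30, 48, 8, 25, 10, 57, 65, 37, 72, 44, 32, 17, 64, 24, 66, 54, 46, 39],
   [4, 71, 59, 26, 44, 33, 46, 6, 53, 61, 55, 68, 35, 28, 13, 30, 15, 62, 70, 42, 52, 49, 37, 22, 69],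
   [57, 29, 42, 2, 74, 9, 51, 64, 31, 49, 38, 26, 11, 58, 66, 60, 73, 40, 33, 18, 35, 20, 67, 50, 47],
   [89, 26, 0, 78, 35, 41, 90, 32, 6, 84, 85, 47, 96, 38, 12, 18, 91, 28, 77, 44, 45, 24, 97, 34, 83],
   [25, 4, 77, 39, 88, 94, 31, 5, 83, 40, 46, 95, 37, 11, 89, 90, 27, 76, 43, 17, 23, 96, 33, 82, 49],
   [3, 76, 38, 87, 29, 30, 9, 82, 44, 93, 99, 36, 10, 88, 45, 26, 75, 42, 16, 94, 95, 32, 81, 48, 22],
   [75, 37, 86, 28, 2, 8, 81, 43, 92, 34, 35, 14, 87, 49, 98, 79, 41, 15, 93, 25, 31, 80, 47, 21, 99],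
   [36, 85, 27, 1, 79, 80, 42, 91, 33, 7, 13, 86, 48, 97, 39, 40, 19, 92, 29, 78, 84, 46, 20, 98, 30],
   [91, 65, 22, 53, 98, 0, 56, 76, 99, 73, 84, 77, 51, 8, 64, 59, 11, 67, 87, 80, 70, 90, 88, 62, 19],
   [50, 95, 93, 67, 24, 96, 70, 2, 58, 78, 5, 61, 81, 79, 53, 89, 82, 56, 13, 69, 64, 16, 72, 92, 85],
   [69, 21, 52, 97, 90, 55, 75, 98, 72, 4, 76, 50, 7, 63, 83, 10, 66, 86, 84, 58, 94, 87, 61, 18, 74],
   [99, 92, 66, 23, 54, 74, 1, 57, 77, 95, 60, 80, 78, 52, 9, 81, 55, 12, 68, 88, 15, 71, 91, 89, 63],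
   [20, 51, 96, 94, 68, 79, 97, 71, 3, 59, 54, 6, 62, 82, 75, 65, 85, 83, 57, 14, 86, 60, 17, 73, 93],
   [0, 1, 2, 3, 4, 5, 6, 7, 8, 9, 10, 11, 12, 13, 14, 15, 16, 17, 18, 19, 20, 21, 22, 23, 24]]

def arr (i : Fin 16) (j : Fin 25) : Fin 100 := (tab.getD i.val []).getD j.val 0

theorem h1 : ∀ i j j', arr i j = arr i j' → j = j' := by decide +kernel
theorem h2 : ∀ j i i', arr i j = arr i' j → i = i' := by decide +kernel
theorem h3 : ∀ s, (Finset.univ.filter (fun p : Fin 16 × Fin 25 => arr p.1 p.2 = s)).card = 4 := by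
  decide +kernel
theorem h4 : ∀ i i', i ≠ i' → (rowSet arr i ∩ rowSet arr i').card = 5 := by decide +kernel
theorem h5 : ∀ j j', j ≠ j' → (colSet arr j ∩ colSet arr j').card = 2 := by decide +kernel
theorem h6 : ∀ i j, (rowSet arr i ∩ colSet arr j).card = 4 := by decide +kernel

theorem result : ∃ A : Fin 16 → Fin 25 → Fin 100, IsTripleArray A :=
  ⟨arr, h1, h2, ⟨4, rfl, h3⟩, ⟨5, h4⟩, ⟨2, h5⟩, ⟨4, h6⟩⟩

end Pool.Agent.Results.MP_a8dd7a_co.Exists
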